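import Pool.Agent.H.MP_c1ff29_an.G

set_option autoImplicit false
open MeasureTheory Set Real InnerProductSpace

namespace Pool.Agent.Results.MP_c1ff29_an.No

/-- open pyramid over a rectangle, apex at the origin -/
def Pyr : Set (EuclideanSpace ℝ (Fin 3)) := {p | 3 * |p 0| < 4 * p 2 ∧ 4 * |p 1| < 3 * p 2 ∧ p 2 < 1}

/-- continuous up to the boundary, `C¹` inside, square integrable gradient -/
def Reg (Ω : Set (EuclideanSpace ℝ (Fin 3))) (ψ : EuclideanSpace ℝ (Fin 3) → ℝ) : Prop :=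
  ContinuousOn ψ (closure Ω) ∧ ContDiffOn ℝ 1 ψ Ω ∧ IntegrableOn (fun x => ‖gradient ψ x‖ ^ 2) Ω

/-- weak form of the Robin eigenvalue equation -/
def Robin (Ω : Set (EuclideanSpace ℝ (Fin 3))) (α lam : ℝ) (u : EuclideanSpace ℝ (Fin 3) → ℝ) :
    Prop :=
  Reg Ω u ∧ ∀ ψ, Reg Ω ψ → (∫ x in Ω, ⟪gradient u x, gradient ψ x⟫_ℝ) +
    α * (∫ x in frontier Ω, u x * ψ x ∂μHE[2]) = lam * ∫ x in Ω, u x * ψ x

theorem result : IsOpen Pyr ∧ Convex ℝ Pyr ∧ Bornology.IsBounded Pyr ∧ Pyr.Nonempty ∧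
    ∀ α : ℝ, 0 < α → ∀ (lam : ℝ) (u : EuclideanSpace ℝ (Fin 3) → ℝ), Robin Pyr α lam u →
      (∀ x ∈ Pyr, 0 < u x) → ¬ ConcaveOn ℝ Pyr fun x => log (u x) := by
  have e : Pyr = H.MP_c1ff29_an.Om := Set.ext fun _ => and_assoc.symm
  rw [e]
  exact ⟨H.MP_c1ff29_an.Om_open, H.MP_c1ff29_an.Om_cv, H.MP_c1ff29_an.Om_bd,
    ⟨_, H.MP_c1ff29_an.Om_ne⟩, fun _ h _ _ h1 h2 => H.MP_c1ff29_an.final h h1.1 h2 h1.2⟩

end Pool.Agent.Results.MP_c1ff29_an.No
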